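import Pool.Agent.H396R3.Final

/-!
# MP_629918_an, Q1: order of the entropy numbers of `W^{a,b}_1` in `L_p`, `d = 2`, `1 < p < 2`

For `1 < p < 2`, every real `b` and every `a > 1 - 1/p`
`ε_k(W^{a,b}_1, L_p) ≍ k^(-a) (log k)^(a+b)`.

Method for the upper bound: for the layer `ΔQ_n`, `d = 2`, Riesz products give for every Gaussian
vector `u` with the identity covariance a function bounded by a constant whose pairing with
trigonometric polynomials on the layer equals `c (2^n (n+1))^(-1/2) u` up to terms absorbed by a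
decomposition into residue classes; hence the polar body of the `L_1` ball of `T(ΔQ_n)` has Gaussian
measure at least `1/2` after scaling by `C (2^n (n+1))^(1/2)`. Sudakov type duality gives the entropy
of the `L_1` ball in `L_2` for all `k`; interpolation between `L_1` and `L_2` gives it in `L_p`.

Definitions used: `Pool/Agent/HypVol/Defs.lean` (`rho`, `layer`, `TP`, `fc`) and
`Pool/Agent/MWidth/Defs.lean` (`lay`, `entP`).
-/

open MeasureTheory HypVol MWidth

namespace Pool.Agent.Results.MP_629918_an.EntropyOrder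

/-- the class `W^{a,b}_1` on the torus of dimension two -/
def W (a b : ℝ) : Set ((Fin 2 → ℝ) → ℂ) :=
  {f | MemLp f 1 (TP 2) ∧ ∀ l : ℕ, eLpNorm (lay 2 l f) 1 (TP 2) ≤
    ENNReal.ofReal ((2:ℝ)^(-(a * l)) * (max (l:ℝ) 1)^b)}

theorem W_eq (a b : ℝ) : W a b = H396.W1 a b := by
  unfold W H396.W1
  simp only [H396.lam2]

theorem result (p a b : ℝ) (hp1 : 1 < p) (hp2 : p < 2) (ha : 1 - 1 / p < a) :
    ∃ c C : ℝ, 0 < c ∧ 0 < C ∧ ∀ k : ℕ, 2 ≤ k →
      ENNReal.ofReal (c * (k:ℝ)^(-a) * (Real.log k)^(a + b)) ≤ entP 2 p k (W a b) ∧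
      entP 2 p k (W a b) ≤ ENNReal.ofReal (C * (k:ℝ)^(-a) * (Real.log k)^(a + b)) := by
  have hp0 : 0 < p := by linarith
  have hal0 : 0 < 1 - 1/p := by
    rw [sub_pos, div_lt_iff₀ hp0]; linarith
  obtain ⟨c, hc, h1⟩ := H396.lower p hp1 a b (by linarith)
  obtain ⟨C, hC, h2⟩ := H396.upper p hp1 hp2 a b ha
  rw [W_eq]
  exact ⟨c, C, hc, hC, fun k hk => ⟨h1 k hk, h2 k hk⟩⟩

end Pool.Agent.Results.MP_629918_an.EntropyOrder
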